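import Pool.Agent.Star.AbsS
import Pool.Agent.Star.AbsStart

/-!
# `K_{1,k}`-isolation of connected graphs: an absolute improvement of `n/(k+1)`

Every connected graph on `n` vertices has `ι(G, K_{1,k}) ≤ n / (k + 1 + 1/86)`, except when
`n = k + 1`, `ι = 1` or `n = 2k + 2`, `ι = 2`.
-/

set_option autoImplicit false

namespace Pool.Agent.Results.MP_911e6e_co.AbsBound

open Pool.Agent.Star Finset

/-- `S` is `{K_{1,k}}`-isolating in `G`: in `G - N[S]` every vertex has fewer than `k`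
neighbours. -/
def Isolating (k : ℕ) {n : ℕ} (G : SimpleGraph (Fin n)) (S : Finset (Fin n)) : Prop :=
  ∀ v : Fin n, (v ∉ S ∧ ∀ s ∈ S, ¬ G.Adj s v) →
    {w : Fin n | G.Adj v w ∧ w ∉ S ∧ ∀ s ∈ S, ¬ G.Adj s w}.ncard < k

/-- The isolation number `ι(G, K_{1,k})`. -/
noncomputable def iota (k : ℕ) {n : ℕ} (G : SimpleGraph (Fin n)) : ℕ :=
  sInf {m | ∃ S : Finset (Fin n), Isolating k G S ∧ S.card = m}

/-- `α` is a threshold for `{K_{1,k}}`. -/
def IsThreshold (k : ℕ) (α : ℝ) : Prop :=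
  0 < α ∧
  {p : Σ n : ℕ, SimpleGraph (Fin n) | p.2.Connected ∧ ⌊α * p.1⌋₊ < iota k p.2}.Finite ∧
  {p : Σ n : ℕ, SimpleGraph (Fin n) | p.2.Connected ∧ iota k p.2 = ⌊α * p.1⌋₊}.Infinite

open Classical in
/-- Closed neighbourhoods. -/
noncomputable def nb {n : ℕ} (G : SimpleGraph (Fin n)) (x : Fin n) : Finset (Fin n) :=
  Finset.univ.filter (fun y => y = x ∨ G.Adj x y)

lemma mem_nb {n : ℕ} {G : SimpleGraph (Fin n)} {x y : Fin n} :
    y ∈ nb G x ↔ y = x ∨ G.Adj x y := by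
  simp [nb]

/-- A set with fewer than `iota k G` elements leaves a star on `k + 1` vertices. -/
lemma star_of_lt {k n : ℕ} {G : SimpleGraph (Fin n)} {D : Finset (Fin n)}
    (h : D.card < iota k G) :
    ∃ S, IsStar (nb G) (k + 1) S ∧ ∀ d ∈ D, Disjoint S (nb G d) := by
  classical
  have hD : ¬ Isolating k G D := by
    intro hI
    have : iota k G ≤ D.card := Nat.sInf_le ⟨D, hI, rfl⟩
    omega
  unfold Isolating at hD
  push Not at hD
  obtain ⟨v, ⟨hv1, hv2⟩, hk⟩ := hD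
  have hfin : ({w : Fin n | G.Adj v w ∧ w ∉ D ∧ ∀ s ∈ D, ¬ G.Adj s w}).Finite := Set.toFinite _
  set A : Finset (Fin n) := Finset.univ.filter (fun w => G.Adj v w ∧ w ∉ D ∧ ∀ s ∈ D, ¬ G.Adj s w)
    with hA
  have hAc : k ≤ A.card := by
    have : {w : Fin n | G.Adj v w ∧ w ∉ D ∧ ∀ s ∈ D, ¬ G.Adj s w} = (A : Set (Fin n)) := by
      ext w; simp [hA]
    rw [this, Set.ncard_coe_finset] at hk
    exact hk
  obtain ⟨B, hBA, hBc⟩ := Finset.exists_subset_card_eq hAc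
  have hvB : v ∉ B := by
    intro hh
    have := hBA hh
    rw [hA, Finset.mem_filter] at this
    exact G.irrefl this.2.1
  refine ⟨insert v B, ⟨by rw [Finset.card_insert_of_notMem hvB, hBc], v,
    Finset.mem_insert_self _ _, ?_⟩, ?_⟩
  · intro w hw
    rcases Finset.mem_insert.1 hw with rfl | hw
    · exact mem_nb.2 (Or.inl rfl)
    · have := hBA hw
      rw [hA, Finset.mem_filter] at this
      exact mem_nb.2 (Or.inr this.2.1)
  · intro d hd
    rw [Finset.disjoint_left]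
    intro w hw hwd
    have hw' : w ∉ D ∧ ∀ s ∈ D, ¬ G.Adj s w := by
      rcases Finset.mem_insert.1 hw with rfl | hw
      · exact ⟨hv1, hv2⟩
      · have := hBA hw
        rw [hA, Finset.mem_filter] at this
        exact this.2.2
    rcases mem_nb.1 hwd with h1 | h1
    · exact hw'.1 (h1 ▸ hd)
    · exact hw'.2 d hd h1

lemma edge_out {n : ℕ} {G : SimpleGraph (Fin n)} (h : G.Connected) (B : Finset (Fin n))
    (hne : B.Nonempty) (hneq : B ≠ Finset.univ) : ∃ x ∈ B, ∃ y ∉ B, y ∈ nb G x := by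
  obtain ⟨b, hb⟩ := hne
  obtain ⟨c, hc⟩ : ∃ c, c ∉ B := by
    by_contra hcon
    push Not at hcon
    exact hneq (Finset.eq_univ_iff_forall.2 hcon)
  obtain ⟨p⟩ := h.preconnected b c
  obtain ⟨d, -, h1, h2⟩ := p.exists_boundary_dart (B : Set (Fin n)) hb hc
  exact ⟨d.fst, h1, d.snd, h2, mem_nb.2 (Or.inr d.adj)⟩

lemma bound (k n : ℕ) (hk : 1 ≤ k) (G : SimpleGraph (Fin n)) (hG : G.Connected) :
    (86 * (k + 1) + 1) * iota k G ≤ 86 * n ∨ (n = k + 1 ∧ iota k G = 1) ∨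
      (n = 2 * k + 2 ∧ iota k G = 2) := by
  have hs : ∀ x, x ∈ nb G x := fun x => mem_nb.2 (Or.inl rfl)
  have hsym : ∀ x y, x ∈ nb G y → y ∈ nb G x := by
    intro x y hxy
    rcases mem_nb.1 hxy with h | h
    · exact mem_nb.2 (Or.inl h.symm)
    · exact mem_nb.2 (Or.inr h.symm)
  obtain ⟨F, X, Z, hS, hW, hZ⟩ := exists_system (N := nb G) (K := k + 1) (s := iota k G) hs hsym
    (by omega) (fun D hD => star_of_lt hD)
  have hcard : Fintype.card (Fin n) = n := Fintype.card_fin n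
  have := hS.final (by omega) (fun B hne hneq => edge_out hG B hne hneq) hW hZ
    (fun R hR L o hL _ => hS.stars hR hL)
  rw [hcard] at this
  rcases this with h | ⟨h1, h2⟩ | ⟨h1, h2⟩
  · exact Or.inl h
  · exact Or.inr (Or.inl ⟨h1, h2⟩)
  · exact Or.inr (Or.inr ⟨by omega, h2⟩)

theorem result (k : ℕ) (hk : 1 ≤ k) :
    (∀ (n : ℕ) (G : SimpleGraph (Fin n)), G.Connected → ¬ (n = k + 1 ∧ iota k G = 1) →
      ¬ (n = 2 * k + 2 ∧ iota k G = 2) → (iota k G : ℝ) * (k + 1 + 1 / 86) ≤ n) ∧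
    ∀ α : ℝ, IsThreshold k α → α * (k + 1 + 1 / 86) ≤ 1 := by
  have key : ∀ (n : ℕ) (G : SimpleGraph (Fin n)), G.Connected → ¬ (n = k + 1 ∧ iota k G = 1) →
      ¬ (n = 2 * k + 2 ∧ iota k G = 2) → (iota k G : ℝ) * (k + 1 + 1 / 86) ≤ n := by
    intro n G hG h1 h2
    rcases bound k n hk G hG with h | h | h
    · have h' : ((86 * (k + 1) + 1 : ℕ) : ℝ) * (iota k G : ℝ) ≤ ((86 : ℕ) : ℝ) * n := by
        exact_mod_cast h
      push_cast at h'
      linarith
    · exact absurd h h1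
    · exact absurd h h2
  refine ⟨key, ?_⟩
  rintro α ⟨hα, -, hinf⟩
  set c : ℝ := k + 1 + 1 / 86 with hc
  have hcpos : 0 < c := by positivity
  by_contra hcon
  push Not at hcon
  -- arbitrarily large n in the infinite set
  have hlarge : ∀ B : ℕ, ∃ p : Σ n : ℕ, SimpleGraph (Fin n), B ≤ p.1 ∧ p.2.Connected ∧
      iota k p.2 = ⌊α * p.1⌋₊ := by
    intro B
    by_contra hno
    push Not at hno
    apply hinf
    have hfin : (Set.range (fun q : Σ m : Fin B, SimpleGraph (Fin m) =>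
        (⟨q.1, q.2⟩ : Σ n : ℕ, SimpleGraph (Fin n)))).Finite := Set.finite_range _
    refine hfin.subset ?_
    rintro ⟨n, G⟩ ⟨h1, h2⟩
    have hn : n < B := by
      by_contra hge
      exact hno ⟨n, G⟩ (not_lt.1 hge) h1 h2
    exact ⟨⟨⟨n, hn⟩, G⟩, rfl⟩
  obtain ⟨B, hB⟩ := exists_nat_gt (c / (α * c - 1))
  obtain ⟨⟨n, G⟩, hn, hG, hi⟩ := hlarge (max B (2 * k + 3))
  have hnB : B ≤ n := (le_max_left _ _).trans hn
  have hnk : 2 * k + 3 ≤ n := (le_max_right _ _).trans hn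
  have h1 := key n G hG (by rintro ⟨h, -⟩; omega) (by rintro ⟨h, -⟩; omega)
  simp only at hi
  rw [hi] at h1
  have h2 : α * n < ⌊α * n⌋₊ + 1 := Nat.lt_floor_add_one _
  have hd : 0 < α * c - 1 := by linarith
  have h3 : (c / (α * c - 1)) < n := hB.trans_le (by exact_mod_cast hnB)
  rw [div_lt_iff₀ hd] at h3
  have h4 : α * n * c < (⌊α * n⌋₊ + 1) * c := by
    exact mul_lt_mul_of_pos_right h2 hcpos
  nlinarith

end Pool.Agent.Results.MP_911e6e_co.AbsBound
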