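import Pool.Agent.Star.MC4

/-!
# The bound `ι(G, K_{1,k}) ≤ 2n / (2k+3)` for connected graphs in which the vertices of degree at
least `k` induce a graph of maximum degree at most one
-/

set_option autoImplicit false

namespace Pool.Agent.Results.MP_911e6e_co.MatchingCentres

open Pool.Agent.Star Finset

/-- `S` is `{K_{1,k}}`-isolating in `G`: in `G - N[S]` every vertex has fewer than `k`
neighbours. -/
def Isolating (k : ℕ) {n : ℕ} (G : SimpleGraph (Fin n)) (S : Finset (Fin n)) : Prop :=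
  ∀ v : Fin n, (v ∉ S ∧ ∀ s ∈ S, ¬ G.Adj s v) →
    {w : Fin n | G.Adj v w ∧ w ∉ S ∧ ∀ s ∈ S, ¬ G.Adj s w}.ncard < k

/-- The isolation number `ι(G, K_{1,k})`. -/
noncomputable def iota (k : ℕ) {n : ℕ} (G : SimpleGraph (Fin n)) : ℕ :=
  sInf {m | ∃ S : Finset (Fin n), Isolating k G S ∧ S.card = m}

/-- Every vertex of degree at least `k` has at most one neighbour of degree at least `k`. -/
def SparseCentres (k : ℕ) {n : ℕ} (G : SimpleGraph (Fin n)) : Prop :=
  ∀ v w w' : Fin n, k ≤ (G.neighborSet v).ncard → k ≤ (G.neighborSet w).ncard →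
    k ≤ (G.neighborSet w').ncard → G.Adj v w → G.Adj v w' → w = w'

open Classical in
/-- Closed neighbourhoods. -/
noncomputable def nb {n : ℕ} (G : SimpleGraph (Fin n)) (x : Fin n) : Finset (Fin n) :=
  Finset.univ.filter (fun y => y = x ∨ G.Adj x y)

lemma mem_nb {n : ℕ} {G : SimpleGraph (Fin n)} {x y : Fin n} :
    y ∈ nb G x ↔ y = x ∨ G.Adj x y := by
  simp [nb]

lemma card_nb {n : ℕ} {G : SimpleGraph (Fin n)} (x : Fin n) :
    (nb G x).card = (G.neighborSet x).ncard + 1 := by
  classical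
  set A : Finset (Fin n) := Finset.univ.filter (fun y => G.Adj x y) with hA
  have h1 : G.neighborSet x = (A : Set (Fin n)) := by
    ext w
    simp [hA]
  have h2 : nb G x = insert x A := by
    ext w
    rw [mem_nb, Finset.mem_insert]
    simp [hA]
  have h3 : x ∉ A := by
    simp [hA]
  rw [h1, Set.ncard_coe_finset, h2, Finset.card_insert_of_notMem h3]

/-- An isolating set in the sense of the helper files is isolating. -/
lemma isolating_of_iso {k n : ℕ} {G : SimpleGraph (Fin n)} {D : Finset (Fin n)}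
    (h : Iso (nb G) (k + 1) Finset.univ D) : Isolating k G D := by
  classical
  rintro v ⟨hv1, hv2⟩
  have hmem : ∀ w : Fin n, (w ∉ D ∧ ∀ s ∈ D, ¬ G.Adj s w) → w ∈ rem (nb G) Finset.univ D := by
    rintro w ⟨hw1, hw2⟩
    rw [mem_rem]
    refine ⟨Finset.mem_univ _, fun d hd hwd => ?_⟩
    rcases mem_nb.1 hwd with h1 | h1
    · exact hw1 (h1 ▸ hd)
    · exact hw2 d hd h1
  have hvr := hmem v ⟨hv1, hv2⟩
  have h1 := h.2 v hvr
  set A : Finset (Fin n) := Finset.univ.filter (fun w => G.Adj v w ∧ w ∉ D ∧ ∀ s ∈ D, ¬ G.Adj s w)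
    with hA
  have h2 : {w : Fin n | G.Adj v w ∧ w ∉ D ∧ ∀ s ∈ D, ¬ G.Adj s w} = (A : Set (Fin n)) := by
    ext w
    simp [hA]
  have h3 : v ∉ A := by
    simp [hA]
  have h4 : insert v A ⊆ nb G v ∩ rem (nb G) Finset.univ D := by
    intro w hw
    rcases Finset.mem_insert.1 hw with rfl | hw
    · exact Finset.mem_inter.2 ⟨mem_nb.2 (Or.inl rfl), hvr⟩
    · rw [hA, Finset.mem_filter] at hw
      exact Finset.mem_inter.2 ⟨mem_nb.2 (Or.inr hw.2.1), hmem w hw.2.2⟩
  have h5 := Finset.card_le_card h4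
  rw [Finset.card_insert_of_notMem h3] at h5
  rw [h2, Set.ncard_coe_finset]
  omega

lemma conn_univ {n : ℕ} {G : SimpleGraph (Fin n)} (h : G.Connected) :
    Conn (nb G) (Finset.univ : Finset (Fin n)) := by
  have hne : Nonempty (Fin n) := h.nonempty
  refine ⟨Finset.univ_nonempty, ?_⟩
  intro B _ hB hneq
  obtain ⟨b, hb⟩ := hB
  obtain ⟨c, hc⟩ : ∃ c, c ∉ B := by
    by_contra hcon
    push Not at hcon
    exact hneq (Finset.eq_univ_iff_forall.2 hcon)
  obtain ⟨p⟩ := h.preconnected b c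
  obtain ⟨d, -, h1, h2⟩ := p.exists_boundary_dart (B : Set (Fin n)) hb hc
  exact ⟨d.fst, h1, d.snd, Finset.mem_univ _, h2, mem_nb.2 (Or.inr d.adj)⟩

theorem result (k n : ℕ) (hk : 1 ≤ k) (G : SimpleGraph (Fin n)) (hG : G.Connected)
    (hC : SparseCentres k G) :
    (2 * k + 3) * iota k G ≤ 2 * n ∨ (n = k + 1 ∧ iota k G = 1) := by
  have hs : ∀ x, x ∈ nb G x := fun x => mem_nb.2 (Or.inl rfl)
  have hsym : ∀ x y, x ∈ nb G y → y ∈ nb G x := by
    intro x y hxy
    rcases mem_nb.1 hxy with h | h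
    · exact mem_nb.2 (Or.inl h.symm)
    · exact mem_nb.2 (Or.inr h.symm)
  have hm : MC.Mat (nb G) (k + 1) Finset.univ := by
    intro v _ hv w hw w' hw' h1 h2 h3 h4
    rw [Finset.inter_univ, card_nb] at hv h3 h4
    rw [Finset.inter_univ, mem_nb] at hw hw'
    refine hC v w w' (by omega) (by omega) (by omega) (hw.resolve_left h1) (hw'.resolve_left h2)
  have hle : iota k G ≤ f (nb G) (k + 1) Finset.univ := by
    obtain ⟨D, hD, hDc⟩ := exists_iso (N := nb G) (K := k + 1) hs Finset.univ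
    rw [← hDc]
    exact Nat.sInf_le ⟨D, isolating_of_iso hD, rfl⟩
  have hcard : (Finset.univ : Finset (Fin n)).card = n := by simp
  rcases MC.bound (K := k + 1) hs hsym (by omega) n Finset.univ hcard (conn_univ hG) hm with h | h
  · left
    rw [hcard] at h
    calc (2 * k + 3) * iota k G ≤ (2 * k + 3) * f (nb G) (k + 1) Finset.univ :=
          Nat.mul_le_mul_left _ hle
      _ = (2 * (k + 1) + 1) * f (nb G) (k + 1) Finset.univ := by ring
      _ ≤ 2 * n := h
  · rw [h.2] at hle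
    rcases Nat.eq_zero_or_pos (iota k G) with h0 | h0
    · left
      rw [h0]
      omega
    · right
      refine ⟨?_, by omega⟩
      rw [← hcard]
      exact h.1

end Pool.Agent.Results.MP_911e6e_co.MatchingCentres
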