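import Pool.Agent.Star.BaseE4
import Pool.Agent.Star.K4.Thr

/-!
# The bound `ι(G, K_{1,k}) ≤ 2n / (2k+3)` for all connected graphs with at most `5k+6` vertices
-/

set_option autoImplicit false

namespace Pool.Agent.Results.MP_911e6e_co.SmallOrder

open Finset Pool.Agent.Star Pool.Agent.Star.Rig

/-- `S` is `{K_{1,k}}`-isolating in `G`: in `G - N[S]` every vertex has fewer than `k`
neighbours. -/
def Isolating (k : ℕ) {n : ℕ} (G : SimpleGraph (Fin n)) (S : Finset (Fin n)) : Prop :=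
  ∀ v : Fin n, (v ∉ S ∧ ∀ s ∈ S, ¬ G.Adj s v) →
    {w : Fin n | G.Adj v w ∧ w ∉ S ∧ ∀ s ∈ S, ¬ G.Adj s w}.ncard < k

/-- The isolation number `ι(G, K_{1,k})`. -/
noncomputable def iota (k : ℕ) {n : ℕ} (G : SimpleGraph (Fin n)) : ℕ :=
  sInf {m | ∃ S : Finset (Fin n), Isolating k G S ∧ S.card = m}

lemma ev_small {n K : ℕ} (hK : 3 ≤ K) (hn : n ≤ 5 * K + 1) : EV (Fin n) K := by
  intro N hs hsym A C hS hA
  by_contra hB
  obtain ⟨N', A', C', h⟩ := exists_viol (by omega) hs hsym hS hA hB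
  obtain ⟨h1, h2⟩ := h.exact (fun h3 => BaseAA.hbase_all hK h h3)
  have h3 : A'.card ≤ n := by
    have := Finset.card_le_univ A'
    rwa [Fintype.card_fin] at this
  have h4 : (2 * K + 1) * 5 ≤ (2 * K + 1) * gk N' A' C' := Nat.mul_le_mul_left _ h2
  omega

theorem result (k n : ℕ) (hk : 2 ≤ k) (hn : n ≤ 5 * k + 6) (G : SimpleGraph (Fin n))
    (hG : G.Connected) :
    (2 * k + 3) * iota k G ≤ 2 * n ∨ (n = k + 1 ∧ iota k G = 1) ∨
      (n = 2 * k + 2 ∧ iota k G = 2) :=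
  Star.K4.bound_at hk (ev_small (by omega) (by omega)) G hG

end Pool.Agent.Results.MP_911e6e_co.SmallOrder
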