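import Pool.Agent.Star.K4.Final

/-!
# The isolation threshold of the 3-star is `2/9`
-/

set_option autoImplicit false

namespace Pool.Agent.Results.MP_911e6e_co.ThreeStars

/-- `S` is `{K_{1,k}}`-isolating in `G`: in `G - N[S]` every vertex has fewer than `k`
neighbours. -/
def Isolating (k : ℕ) {n : ℕ} (G : SimpleGraph (Fin n)) (S : Finset (Fin n)) : Prop :=
  ∀ v : Fin n, (v ∉ S ∧ ∀ s ∈ S, ¬ G.Adj s v) →
    {w : Fin n | G.Adj v w ∧ w ∉ S ∧ ∀ s ∈ S, ¬ G.Adj s w}.ncard < k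

/-- The isolation number `ι(G, K_{1,k})`. -/
noncomputable def iota (k : ℕ) {n : ℕ} (G : SimpleGraph (Fin n)) : ℕ :=
  sInf {m | ∃ S : Finset (Fin n), Isolating k G S ∧ S.card = m}

/-- `α` is a threshold for `{K_{1,k}}`. -/
def IsThreshold (k : ℕ) (α : ℝ) : Prop :=
  0 < α ∧
  {p : Σ n : ℕ, SimpleGraph (Fin n) | p.2.Connected ∧ ⌊α * p.1⌋₊ < iota k p.2}.Finite ∧
  {p : Σ n : ℕ, SimpleGraph (Fin n) | p.2.Connected ∧ iota k p.2 = ⌊α * p.1⌋₊}.Infinite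

theorem result :
    (∀ (n : ℕ) (G : SimpleGraph (Fin n)), G.Connected →
      9 * iota 3 G ≤ 2 * n ∨ (n = 4 ∧ iota 3 G = 1) ∨ (n = 8 ∧ iota 3 G = 2)) ∧
    ∀ α : ℝ, IsThreshold 3 α ↔ α = 2 / 9 := by
  obtain ⟨h1, h2⟩ := Star.K4.threshold_of_EV (k := 3) (by omega) Star.K4.EV_four
  refine ⟨fun n G hG => ?_, fun α => ?_⟩
  · rcases h1 n G hG with h | h | h
    · left; exact h
    · right; left; exact h
    · right; right; exact h
  · have h3 : (2 / (2 * ((3 : ℕ) : ℝ) + 3) : ℝ) = 2 / 9 := by norm_num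
    have h4 := h2 α
    rw [h3] at h4
    exact h4

end Pool.Agent.Results.MP_911e6e_co.ThreeStars
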